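import Pool.Agent.N671.DA.Tup
import Pool.Agent.Results.MP_3cf473_nt.AlmostAllTuples

/-!
# Algebraic independence in bounded degree of the logarithms of best approximation vectors

Let `α = (α_(i,j))` be a system of `m` linear forms in `k` variables and `β` in `ℝ^m`. We consider the integer vectors
`q = (q_1, …, q_k)` with `‖∑_i q_i α_(i,j) - β_j‖ ≤ c |q| ^ (-τ)` for all `j`, where `‖x‖` is the distance to the nearest
integer and `|q|` the maximum of the `|q_i|`. For `β = 0`, `c = 1` and `τ = k / m` these include all best approximation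
vectors of the system (for `k = m = 1` the denominators of the convergents of `α`, for `m = 1` the best approximation vectors
of a linear form, for `k = 1` the denominators of the best simultaneous approximations). They form a very sparse sequence.

We prove: for all `k` and `d` there is a constant `C` such that for all systems `α` outside a set of Hausdorff dimension at
most `(k - 1) m + (m + k - 1 / C) / (1 + τ)` and all `c` the numbers `|q_1|, …, |q_k|` are at least `2` for all such integer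
vectors `q` with `|q|` large, and

* the lower bound `|P (l)| ≥ 1 / (|q| H ^ C)` holds for all heights `2 ≤ H ≤ exp (exp (|q| ^ (1 / C)))`, all logarithms `l i`
  of the integers `|q_i|` with `|Im (l i)| ≤ H` and all nonzero polynomials `P` with integer coefficients, of degree at most
  `d` and height at most `H` (so `|P (l)| ≥ H ^ (- C - 1)` if moreover `H ≥ |q|`);
* for every unbounded set of heights the lower bound `|P (l)| ≥ H ^ (- C)` holds for arbitrarily large heights `H` in the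
  set (here the exceptional set of systems depends on the set of heights).

For `τ = k / m` the bound is `k m - m / (C (m + k))`, so the theorem concerns the best approximation vectors of almost all
systems of linear forms. The proof uses the starting theorem `AlmostAllTuples` of MP_3cf473_nt and the engine
`Pool.Agent.N671.DA` (helper671).
-/

set_option autoImplicit false

namespace Pool.Agent.Results.MP_16b26a_nt.ApproximationVectors

open Pool.Agent.N671.DA (Near approx_tuples)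
open Pool.Agent.Results.MP_3cf473_nt.AlmostAllTuples (Small box)

lemma small_mono {k d : ℕ} {H η η' : ℝ} {n : Fin k → ℕ} (h : Small d H η n) (hη : η ≤ η') : Small d H η' n := by
  obtain ⟨l, h1, h2, P, h3, h4, h5, h6⟩ := h
  exact ⟨l, h1, h2, P, h3, h4, h5, h6.trans_le hη⟩

/-- the maximum of the coordinates -/
noncomputable def size {k : ℕ} (n : Fin k → ℕ) : ℝ := ‖fun i => (n i : ℝ)‖

lemma le_size {k : ℕ} (n : Fin k → ℕ) (i : Fin k) : (n i : ℝ) ≤ size n := by
  have h := norm_le_pi_norm (fun i => (n i : ℝ)) i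
  simp only [Real.norm_natCast] at h
  exact h

lemma size_le {k : ℕ} (n : Fin k → ℕ) {T : ℝ} (hT : 0 ≤ T) (h : ∀ i, (n i : ℝ) ≤ T) : size n ≤ T := by
  refine (pi_norm_le_iff_of_nonneg hT).2 fun i => ?_
  simp only [Real.norm_natCast]
  exact h i

lemma size_natAbs {k : ℕ} (q : Fin k → ℤ) : size (fun i => (q i).natAbs) = ‖q‖ := by
  apply le_antisymm
  · refine size_le _ (norm_nonneg _) fun i => ?_
    have h := norm_le_pi_norm q i
    rw [Int.norm_eq_abs] at h
    rw [Nat.cast_natAbs, Int.cast_abs]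
    exact h
  · refine (pi_norm_le_iff_of_nonneg (norm_nonneg _)).2 fun i => ?_
    have h := le_size (fun i => (q i).natAbs) i
    rw [Nat.cast_natAbs, Int.cast_abs] at h
    rw [Int.norm_eq_abs]
    exact h

open Classical in
/-- The number of the tuples for which the bound fails at some height in the long range. -/
lemma count_range {k d C : ℕ} (hk : 1 ≤ k) (hC : 0 < C)
    (h : ∀ T : ℕ, 1 ≤ T → ∀ κ : ℝ, 0 < κ → κ ≤ 1 →
      ((((box k T).filter fun n => ∃ H : ℝ, 2 ≤ H ∧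
        H ≤ Real.exp (Real.exp ((T : ℝ) ^ (1 / (C : ℝ)))) ∧ Small d H (κ / H ^ C) n).card : ℕ) : ℝ) ≤
        C * (κ ^ (1 / (C : ℝ)) * (T : ℝ) ^ k + (T : ℝ) ^ ((k : ℝ) - 1 / C))) (T : ℕ) (hT : 1 ≤ T) :
    (({w : Fin k → ℕ | (∀ i, 2 ≤ w i ∧ w i ≤ T) ∧ w ∈ {n : Fin k → ℕ | ∃ H : ℝ, 2 ≤ H ∧
        H ≤ Real.exp (Real.exp (size n ^ (1 / (C : ℝ)))) ∧ Small d H (1 / (size n * H ^ C)) n}}.ncard : ℕ) : ℝ) ≤
      (1 + 2 * C) * (T : ℝ) ^ ((k : ℝ) - 1 / (2 * C)) := by
  classical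
  have hC1 : (1 : ℝ) ≤ C := by exact_mod_cast hC
  have hk1 : (1 : ℝ) ≤ k := by exact_mod_cast hk
  have hT1 : (1 : ℝ) ≤ T := by exact_mod_cast hT
  have hT0 : (0 : ℝ) < T := by linarith
  obtain ⟨R, hR⟩ : ∃ R : ℕ, R = ⌊(T : ℝ) ^ (1 / 2 : ℝ)⌋₊ := ⟨_, rfl⟩
  have hR1 : (R : ℝ) ≤ (T : ℝ) ^ (1 / 2 : ℝ) := by rw [hR]; exact Nat.floor_le (by positivity)
  obtain ⟨κ, hκ⟩ : ∃ κ : ℝ, κ = (T : ℝ) ^ (-(1 / 2) : ℝ) := ⟨_, rfl⟩
  have hκ0 : 0 < κ := by rw [hκ]; positivity
  have hκ1 : κ ≤ 1 := by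
    rw [hκ]
    exact Real.rpow_le_one_of_one_le_of_nonpos hT1 (by norm_num)
  have hcC : 1 / (2 * (C : ℝ)) ≤ 1 / 2 := by
    apply one_div_le_one_div_of_le (by norm_num)
    linarith
  have hsub : {w : Fin k → ℕ | (∀ i, 2 ≤ w i ∧ w i ≤ T) ∧ w ∈ {n : Fin k → ℕ | ∃ H : ℝ, 2 ≤ H ∧
        H ≤ Real.exp (Real.exp (size n ^ (1 / (C : ℝ)))) ∧ Small d H (1 / (size n * H ^ C)) n}} ⊆
      (((Fintype.piFinset fun _ : Fin k => Finset.Icc 1 R) ∪
        ((box k T).filter fun n => ∃ H : ℝ, 2 ≤ H ∧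
          H ≤ Real.exp (Real.exp ((T : ℝ) ^ (1 / (C : ℝ)))) ∧ Small d H (κ / H ^ C) n) : Finset (Fin k → ℕ)) :
          Set (Fin k → ℕ)) := by
    rintro w ⟨h1, H, h2, h3, h4⟩
    rw [Finset.mem_coe, Finset.mem_union]
    by_cases hs : size w ≤ (T : ℝ) ^ (1 / 2 : ℝ)
    · left
      rw [Fintype.mem_piFinset]
      intro i
      rw [Finset.mem_Icc]
      refine ⟨by have := (h1 i).1; omega, ?_⟩
      rw [hR]
      exact Nat.le_floor ((le_size w i).trans hs)
    · right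
      push Not at hs
      rw [Finset.mem_filter, box, Fintype.mem_piFinset]
      refine ⟨fun i => ?_, H, h2, h3.trans ?_, small_mono h4 ?_⟩
      · rw [Finset.mem_Icc]
        exact ⟨by have := (h1 i).1; omega, (h1 i).2⟩
      · apply Real.exp_le_exp.2
        apply Real.exp_le_exp.2
        refine Real.rpow_le_rpow (norm_nonneg _) (size_le w hT0.le fun i => ?_) (by positivity)
        exact_mod_cast (h1 i).2
      · have hH : 0 < H ^ C := by positivity
        have hsp : (0 : ℝ) < size w := lt_of_le_of_lt (by positivity) hs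
        rw [← div_div]
        apply div_le_div_of_nonneg_right _ hH.le
        rw [hκ, Real.rpow_neg hT0.le, ← one_div]
        exact one_div_le_one_div_of_le (by positivity) hs.le
  have h1 := Set.ncard_le_ncard hsub (Finset.finite_toSet _)
  rw [Set.ncard_coe_finset] at h1
  have h2 := h1.trans (Finset.card_union_le _ _)
  have h3 : (((Fintype.piFinset fun _ : Fin k => Finset.Icc 1 R).card : ℕ) : ℝ) ≤ (T : ℝ) ^ ((k : ℝ) - 1 / (2 * C)) := by
    rw [Fintype.card_piFinset, Finset.prod_const, Finset.card_univ, Fintype.card_fin, Nat.card_Icc, Nat.add_sub_cancel]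
    push_cast
    calc (R : ℝ) ^ k ≤ ((T : ℝ) ^ (1 / 2 : ℝ)) ^ k := pow_le_pow_left₀ (Nat.cast_nonneg _) hR1 k
      _ = (T : ℝ) ^ ((1 / 2 : ℝ) * k) := by rw [← Real.rpow_natCast, ← Real.rpow_mul hT0.le]
      _ ≤ (T : ℝ) ^ ((k : ℝ) - 1 / (2 * C)) := by
          apply Real.rpow_le_rpow_of_exponent_le hT1
          nlinarith
  have h4 : κ ^ (1 / (C : ℝ)) * (T : ℝ) ^ k ≤ (T : ℝ) ^ ((k : ℝ) - 1 / (2 * C)) := by
    rw [hκ, ← Real.rpow_mul hT0.le, ← Real.rpow_natCast, ← Real.rpow_add hT0]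
    apply Real.rpow_le_rpow_of_exponent_le hT1
    have : -(1 / 2) * (1 / (C : ℝ)) = -(1 / (2 * (C : ℝ))) := by
      field_simp
    linarith
  have h5 : (T : ℝ) ^ ((k : ℝ) - 1 / C) ≤ (T : ℝ) ^ ((k : ℝ) - 1 / (2 * C)) := by
    apply Real.rpow_le_rpow_of_exponent_le hT1
    have : 1 / (2 * (C : ℝ)) ≤ 1 / C := by
      apply one_div_le_one_div_of_le (by positivity)
      linarith
    linarith
  have h6 := h T hT κ hκ0 hκ1
  have h7 : (({w : Fin k → ℕ | (∀ i, 2 ≤ w i ∧ w i ≤ T) ∧ w ∈ {n : Fin k → ℕ | ∃ H : ℝ, 2 ≤ H ∧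
        H ≤ Real.exp (Real.exp (size n ^ (1 / (C : ℝ)))) ∧ Small d H (1 / (size n * H ^ C)) n}}.ncard : ℕ) : ℝ) ≤
      (((Fintype.piFinset fun _ : Fin k => Finset.Icc 1 R).card : ℕ) : ℝ) +
      ((((box k T).filter fun n => ∃ H : ℝ, 2 ≤ H ∧
          H ≤ Real.exp (Real.exp ((T : ℝ) ^ (1 / (C : ℝ)))) ∧ Small d H (κ / H ^ C) n).card : ℕ) : ℝ) := by
    exact_mod_cast h2
  have h8 : (C : ℝ) * (κ ^ (1 / (C : ℝ)) * (T : ℝ) ^ k + (T : ℝ) ^ ((k : ℝ) - 1 / C)) ≤
      C * ((T : ℝ) ^ ((k : ℝ) - 1 / (2 * C)) + (T : ℝ) ^ ((k : ℝ) - 1 / (2 * C))) := by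
    gcongr
  linarith

/-- **Logarithms at approximation vectors.** Let `k ≥ 1`. For all `d` there is `C > 0` such that for all `m`, `β` in `ℝ^m`
and `τ > 0`, for all systems `α` of `m` linear forms in `k` variables outside a set `E` of Hausdorff dimension at most
`(k - 1) m + (m + k - 1 / C) / (1 + τ)` and all `c`, for all integer vectors `q` with `|q|` large and
`‖∑_i q_i α_(i,j) - β_j‖ ≤ c |q| ^ (-τ)` for all `j`: all `|q_i|` are at least `2` and

(1) there are no `2 ≤ H ≤ exp (exp (|q| ^ (1 / C)))`, logarithms `l i` of `|q_i|` with `|Im (l i)| ≤ H` and nonzero `P` with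
integer coefficients, of degree at most `d` and height at most `H` with `|P (l)| < 1 / (|q| H ^ C)`;

(2) if an unbounded set `𝓗` of heights is given, then (outside a set `E` depending on `𝓗`) for arbitrarily large `H` in `𝓗`
there are no such `l` and `P` with `|P (l)| < 1 / H ^ C`. -/
theorem result (k d : ℕ) (hk : 1 ≤ k) :
    ∃ C : ℕ, 0 < C ∧ ∀ (m : ℕ) (β : Fin m → ℝ) (τ : ℝ), 0 < τ →
      (∃ E : Set (Fin k × Fin m → ℝ),
        dimH E ≤ ENNReal.ofReal (((k : ℝ) - 1) * m + (m + ((k : ℝ) - 1 / C)) / (1 + τ)) ∧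
        ∀ α, α ∉ E → ∀ c : ℝ, ∃ Q : ℝ, ∀ q : Fin k → ℤ, Q ≤ ‖q‖ → Near α β q (c * ‖q‖ ^ (-τ)) →
          (∀ i, 2 ≤ (q i).natAbs) ∧
          ∀ H : ℝ, 2 ≤ H → H ≤ Real.exp (Real.exp (‖q‖ ^ (1 / (C : ℝ)))) →
            ¬ Small d H (1 / (‖q‖ * H ^ C)) fun i => (q i).natAbs) ∧
      ∀ 𝓗 : Set ℝ, ¬ BddAbove 𝓗 →
        ∃ E : Set (Fin k × Fin m → ℝ),
          dimH E ≤ ENNReal.ofReal (((k : ℝ) - 1) * m + (m + ((k : ℝ) - 1 / C)) / (1 + τ)) ∧
          ∀ α, α ∉ E → ∀ c : ℝ, ∃ Q : ℝ, ∀ q : Fin k → ℤ, Q ≤ ‖q‖ → Near α β q (c * ‖q‖ ^ (-τ)) →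
            (∀ i, 2 ≤ (q i).natAbs) ∧
            ∀ H₀ : ℝ, ∃ H ∈ 𝓗, H₀ ≤ H ∧ ¬ Small d H (1 / H ^ C) fun i => (q i).natAbs := by
  classical
  obtain ⟨C, hC, h⟩ := Pool.Agent.Results.MP_3cf473_nt.AlmostAllTuples.result k d
  have hC1 : (1 : ℝ) ≤ C := by exact_mod_cast hC
  have hk1 : (1 : ℝ) ≤ k := by exact_mod_cast hk
  have hcast : ((2 * C : ℕ) : ℝ) = 2 * C := by push_cast; ring
  have hc1 : 1 / (2 * (C : ℝ)) ≤ 1 := by
    rw [div_le_one (by positivity)]
    linarith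
  refine ⟨2 * C, by omega, fun m β τ hτ => ⟨?_, fun 𝓗 h𝓗 => ?_⟩⟩
  · obtain ⟨E, hE, hE2⟩ := approx_tuples hk {n : Fin k → ℕ | ∃ H : ℝ, 2 ≤ H ∧
        H ≤ Real.exp (Real.exp (size n ^ (1 / (C : ℝ)))) ∧ Small d H (1 / (size n * H ^ C)) n}
      hc1 (C₀ := 1 + 2 * C) (count_range hk hC (fun T hT κ h1 h2 => (h T hT).1 κ h1 h2)) β hτ
    rw [hcast]
    refine ⟨E, hE, fun α hα c => ?_⟩
    obtain ⟨Q, hQ⟩ := hE2 α hα c
    refine ⟨Q, fun q hq h1 => ⟨(hQ q hq h1).1, fun H hH1 hH2 hS => (hQ q hq h1).2 ?_⟩⟩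
    have h2 := (hQ q hq h1).1
    have hn1 : (1 : ℝ) ≤ ‖q‖ := by
      have h3 := le_size (fun i => (q i).natAbs) ⟨0, hk⟩
      rw [size_natAbs] at h3
      have h4 : (2 : ℝ) ≤ (((q ⟨0, hk⟩).natAbs : ℕ) : ℝ) := by exact_mod_cast h2 ⟨0, hk⟩
      linarith
    refine ⟨H, hH1, hH2.trans ?_, small_mono hS ?_⟩
    · rw [size_natAbs]
      apply Real.exp_le_exp.2
      apply Real.exp_le_exp.2
      apply Real.rpow_le_rpow_of_exponent_le hn1
      apply one_div_le_one_div_of_le (by positivity)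
      linarith
    · rw [size_natAbs]
      apply one_div_le_one_div_of_le (by positivity)
      have : H ^ C ≤ H ^ (2 * C) := pow_le_pow_right₀ (by linarith) (by omega)
      gcongr
  · obtain ⟨E, hE, hE2⟩ := approx_tuples hk {n : Fin k → ℕ | ∃ H₀ : ℝ, ∀ H ∈ 𝓗, H₀ ≤ H → Small d H (1 / H ^ C) n}
      hc1 (C₀ := C) (fun T hT => by
        have h1 := (h T hT).2.2 𝓗 h𝓗
        have hT1 : (1 : ℝ) ≤ T := by exact_mod_cast hT
        have hsub : {w : Fin k → ℕ | (∀ i, 2 ≤ w i ∧ w i ≤ T) ∧ w ∈ {n : Fin k → ℕ | ∃ H₀ : ℝ, ∀ H ∈ 𝓗, H₀ ≤ H →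
            Small d H (1 / H ^ C) n}} ⊆
            (((box k T).filter fun n => ∃ H₀ : ℝ, ∀ H ∈ 𝓗, H₀ ≤ H → Small d H (1 / H ^ C) n : Finset (Fin k → ℕ)) :
              Set (Fin k → ℕ)) := by
          rintro w ⟨h2, h3⟩
          rw [Finset.mem_coe, Finset.mem_filter, box, Fintype.mem_piFinset]
          refine ⟨fun i => ?_, h3⟩
          rw [Finset.mem_Icc]
          exact ⟨by have := (h2 i).1; omega, (h2 i).2⟩
        have h2 := Set.ncard_le_ncard hsub (Finset.finite_toSet _)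
        rw [Set.ncard_coe_finset] at h2
        have h3 : (T : ℝ) ^ ((k : ℝ) - 1 / C) ≤ (T : ℝ) ^ ((k : ℝ) - 1 / (2 * C)) := by
          apply Real.rpow_le_rpow_of_exponent_le hT1
          have : 1 / (2 * (C : ℝ)) ≤ 1 / C := by
            apply one_div_le_one_div_of_le (by positivity)
            linarith
          linarith
        refine le_trans (Nat.cast_le.2 h2) (h1.trans ?_)
        gcongr) β hτ
    rw [hcast]
    refine ⟨E, hE, fun α hα c => ?_⟩
    obtain ⟨Q, hQ⟩ := hE2 α hα c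
    refine ⟨Q, fun q hq h1 => ⟨(hQ q hq h1).1, fun H₀ => ?_⟩⟩
    by_contra hcon
    push Not at hcon
    apply (hQ q hq h1).2
    refine ⟨max H₀ 1, fun H hH hH1 => small_mono (hcon H hH ((le_max_left _ _).trans hH1)) ?_⟩
    have hH2 : (1 : ℝ) ≤ H := (le_max_right _ _).trans hH1
    apply one_div_le_one_div_of_le (by positivity)
    exact pow_le_pow_right₀ hH2 (by omega)

end Pool.Agent.Results.MP_16b26a_nt.ApproximationVectors
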